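import Mathlib
set_option autoImplicit false
open MeasureTheory Filter Topology

namespace Pool.Agent.Results.MP_9c1228_co.Disproof


/-- Euclidean `d`-space. -/
abbrev E (d : ℕ) := EuclideanSpace ℝ (Fin d)

/-- `T` is a full-dimensional polytope. -/
def IsPolytope {d : ℕ} (T : Set (E d)) : Prop :=
  (∃ s : Set (E d), s.Finite ∧ T = convexHull ℝ s) ∧ (interior T).Nonempty

/-- The translate `v + T`. -/
def shift {d : ℕ} (v : E d) (T : Set (E d)) : Set (E d) := (fun x => v + x) '' T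

/-- The box `∏ [a i, b i]`. -/
def rbox {d : ℕ} (a b : Fin d → ℝ) : Set (E d) := {p | ∀ i, a i ≤ p i ∧ p i ≤ b i}

/-- The open box. -/
def obox {d : ℕ} (a b : Fin d → ℝ) : Set (E d) := {p | ∀ i, a i < p i ∧ p i < b i}

lemma rbox_eq {d : ℕ} (a b : Fin d → ℝ) :
    rbox a b = (EuclideanSpace.equiv (Fin d) ℝ) ⁻¹' (Set.univ.pi fun i => Set.Icc (a i) (b i)) := by
  ext p
  simp only [rbox, Set.mem_ofPred_eq, Set.mem_preimage, Set.mem_pi, Set.mem_univ, true_imp_iff,
    Set.mem_Icc]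
  rfl

lemma obox_eq {d : ℕ} (a b : Fin d → ℝ) :
    obox a b = (EuclideanSpace.equiv (Fin d) ℝ) ⁻¹' (Set.univ.pi fun i => Set.Ioo (a i) (b i)) := by
  ext p
  simp only [obox, Set.mem_ofPred_eq, Set.mem_preimage, Set.mem_pi, Set.mem_univ, true_imp_iff,
    Set.mem_Ioo]
  rfl

lemma rbox_eq_image {d : ℕ} (a b : Fin d → ℝ) :
    rbox a b = (EuclideanSpace.equiv (Fin d) ℝ).symm '' (Set.univ.pi fun i => Set.Icc (a i) (b i)) := by
  rw [rbox_eq, ContinuousLinearEquiv.image_symm_eq_preimage]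

lemma interior_rbox {d : ℕ} (a b : Fin d → ℝ) : interior (rbox a b) = obox a b := by
  have h := (EuclideanSpace.equiv (Fin d) ℝ).toHomeomorph.preimage_interior
    (Set.univ.pi fun i => Set.Icc (a i) (b i))
  rw [rbox_eq, obox_eq]
  refine Eq.trans ?_ (Eq.trans h.symm ?_)
  · rfl
  · rw [interior_pi_set Set.finite_univ]
    simp only [interior_Icc]
    rfl

lemma closed_rbox {d : ℕ} (a b : Fin d → ℝ) : IsClosed (rbox a b) := by
  rw [rbox_eq]
  exact (isClosed_set_pi fun i _ => isClosed_Icc).preimage (EuclideanSpace.equiv (Fin d) ℝ).continuous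

lemma convex_rbox {d : ℕ} (a b : Fin d → ℝ) : Convex ℝ (rbox a b) := by
  rw [rbox_eq]
  exact (convex_pi fun i _ => convex_Icc _ _).linear_preimage
    (EuclideanSpace.equiv (Fin d) ℝ).toLinearEquiv.toLinearMap

lemma rbox_hull {d : ℕ} (a b : Fin d → ℝ) (h : ∀ i, a i ≤ b i) :
    ∃ s : Set (E d), s.Finite ∧ rbox a b = convexHull ℝ s := by
  refine ⟨(EuclideanSpace.equiv (Fin d) ℝ).symm '' (Set.univ.pi fun i => {a i, b i}), ?_, ?_⟩
  · exact (Set.Finite.pi fun i => Set.toFinite _).image _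
  · have h1 := (EuclideanSpace.equiv (Fin d) ℝ).symm.toLinearEquiv.toLinearMap.image_convexHull
      (Set.univ.pi fun i => ({a i, b i} : Set ℝ))
    rw [convexHull_pi] at h1
    rw [rbox_eq_image]
    refine Eq.trans ?_ h1
    congr 1
    ext x
    simp only [Set.mem_pi, Set.mem_univ, true_imp_iff]
    refine forall_congr' fun i => ?_
    rw [convexHull_pair, segment_eq_Icc (h i)]

lemma extreme_rbox {d : ℕ} (a b : Fin d → ℝ) (h : ∀ i, a i ≤ b i) :
    (rbox a b).extremePoints ℝ = {p | ∀ i, p i = a i ∨ p i = b i} := by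
  rw [rbox_eq_image, ← image_extremePoints, extremePoints_pi,
    ContinuousLinearEquiv.image_symm_eq_preimage]
  ext p
  simp only [Set.mem_preimage, Set.mem_pi, Set.mem_univ, true_imp_iff, Set.mem_ofPred_eq]
  refine forall_congr' fun i => ?_
  rw [Set.extremePoints_Icc (h i)]
  rfl

lemma volume_rbox {d : ℕ} (a b : Fin d → ℝ) (h : ∀ i, a i ≤ b i) :
    volume (rbox a b) = ENNReal.ofReal (∏ i, (b i - a i)) := by
  have h1 := (EuclideanSpace.volume_preserving_symm_measurableEquiv_toLp (Fin d)).measure_preimage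
    (s := Set.univ.pi fun i => Set.Icc (a i) (b i))
    (MeasurableSet.univ_pi fun i => measurableSet_Icc).nullMeasurableSet
  have h2 : rbox a b = (MeasurableEquiv.toLp 2 (Fin d → ℝ)).symm ⁻¹'
      (Set.univ.pi fun i => Set.Icc (a i) (b i)) := by
    ext p
    simp only [rbox, Set.mem_ofPred_eq, Set.mem_preimage, Set.mem_pi, Set.mem_univ, true_imp_iff,
      Set.mem_Icc]
    rfl
  rw [h2, h1, Set.pi_univ_Icc, Real.volume_Icc_pi, ENNReal.ofReal_prod_of_nonneg]
  intro i _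
  linarith [h i]



/-- The integers whose lowest base `5` digit outside `{0, 4}` is `2`. -/
inductive Hole : ℤ → Prop
  | base (m : ℤ) : Hole (5 * m + 2)
  | zero (m : ℤ) : Hole m → Hole (5 * m)
  | four (m : ℤ) : Hole m → Hole (5 * m + 4)

lemma hole_cases {n : ℤ} (h : Hole n) :
    (∃ m, n = 5 * m + 2) ∨ (∃ m, Hole m ∧ n = 5 * m) ∨ (∃ m, Hole m ∧ n = 5 * m + 4) := by
  cases h with
  | base m => exact Or.inl ⟨m, rfl⟩
  | zero m h => exact Or.inr (Or.inl ⟨m, h, rfl⟩)
  | four m h => exact Or.inr (Or.inr ⟨m, h, rfl⟩)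

lemma hole0 (m : ℤ) : Hole (5 * m) ↔ Hole m := by
  constructor
  · intro h
    rcases hole_cases h with ⟨k, hk⟩ | ⟨k, h2, hk⟩ | ⟨k, h2, hk⟩
    · omega
    · have : m = k := by omega
      exact this ▸ h2
    · omega
  · exact Hole.zero m

lemma hole4 (m : ℤ) : Hole (5 * m + 4) ↔ Hole m := by
  constructor
  · intro h
    rcases hole_cases h with ⟨k, hk⟩ | ⟨k, h2, hk⟩ | ⟨k, h2, hk⟩
    · omega
    · omega
    · have : m = k := by omega
      exact this ▸ h2
  · exact Hole.four m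

lemma hole2 (m : ℤ) : Hole (5 * m + 2) := Hole.base m

lemma not_hole1 (m : ℤ) : ¬ Hole (5 * m + 1) := by
  intro h
  rcases hole_cases h with ⟨k, hk⟩ | ⟨k, h2, hk⟩ | ⟨k, h2, hk⟩ <;> omega

lemma not_hole3 (m : ℤ) : ¬ Hole (5 * m + 3) := by
  intro h
  rcases hole_cases h with ⟨k, hk⟩ | ⟨k, h2, hk⟩ | ⟨k, h2, hk⟩ <;> omega

lemma hole_ne {n : ℤ} (h : Hole n) : n ≠ 0 ∧ n ≠ -1 := by
  induction h with
  | base m => omega
  | zero m _ ih => omega
  | four m _ ih => omega

lemma not_hole_zero : ¬ Hole 0 := fun h => (hole_ne h).1 rfl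
lemma not_hole_neg_one : ¬ Hole (-1) := fun h => (hole_ne h).2 rfl

lemma not_adj {n : ℤ} (h : Hole n) : ¬ Hole (n + 1) ∧ ¬ Hole (n - 1) := by
  induction h with
  | base m =>
    refine ⟨?_, ?_⟩
    · have : 5 * m + 2 + 1 = 5 * m + 3 := by ring
      rw [this]; exact not_hole3 m
    · have : 5 * m + 2 - 1 = 5 * m + 1 := by ring
      rw [this]; exact not_hole1 m
  | zero m _ ih =>
    refine ⟨not_hole1 m, ?_⟩
    have : 5 * m - 1 = 5 * (m - 1) + 4 := by ring
    rw [this, hole4]; exact ih.2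
  | four m _ ih =>
    refine ⟨?_, ?_⟩
    · have : 5 * m + 4 + 1 = 5 * (m + 1) := by ring
      rw [this, hole0]; exact ih.1
    · have : 5 * m + 4 - 1 = 5 * m + 3 := by ring
      rw [this]; exact not_hole3 m

/-- Consecutive points of the complement of `Hole`. -/
def Gap (x y : ℤ) : Prop := ¬ Hole x ∧ ¬ Hole y ∧ (y = x + 1 ∨ (y = x + 2 ∧ Hole (x + 1)))

lemma Gap.lt {x y : ℤ} (h : Gap x y) : x < y := by
  rcases h with ⟨_, _, h | ⟨h, _⟩⟩ <;> omega

/-- Right neighbour. -/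
lemma gap_right {x : ℤ} (h : ¬ Hole x) : ∃ y, Gap x y ∧ ∀ z, x < z → ¬ Hole z → y ≤ z := by
  classical
  by_cases h1 : Hole (x + 1)
  · refine ⟨x + 2, ⟨h, ?_, Or.inr ⟨rfl, h1⟩⟩, ?_⟩
    · have := (not_adj h1).1
      rwa [show x + 1 + 1 = x + 2 by ring] at this
    · intro z hz hz2
      by_contra hcon
      have : z = x + 1 := by omega
      exact hz2 (this ▸ h1)
  · exact ⟨x + 1, ⟨h, h1, Or.inl rfl⟩, fun z hz _ => by omega⟩

/-- Left neighbour. -/
lemma gap_left {x : ℤ} (h : ¬ Hole x) : ∃ y, Gap y x ∧ ∀ z, z < x → ¬ Hole z → z ≤ y := by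
  classical
  by_cases h1 : Hole (x - 1)
  · refine ⟨x - 2, ⟨?_, h, Or.inr ⟨by ring, ?_⟩⟩, ?_⟩
    · have := (not_adj h1).2
      rwa [show x - 1 - 1 = x - 2 by ring] at this
    · rwa [show x - 2 + 1 = x - 1 by ring]
    · intro z hz hz2
      by_contra hcon
      have : z = x - 1 := by omega
      exact hz2 (this ▸ h1)
  · exact ⟨x - 1, ⟨h1, h, Or.inl (by ring)⟩, fun z hz _ => by omega⟩

/-- There is no point of the complement strictly inside a gap. -/
lemma Gap.between {x y z : ℤ} (h : Gap x y) (hz : ¬ Hole z) : z ≤ x ∨ y ≤ z := by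
  rcases h with ⟨_, _, h | ⟨h, h2⟩⟩
  · omega
  · by_contra hcon
    have : z = x + 1 := by omega
    exact hz (this ▸ h2)

/-- Two gaps are equal or have disjoint interiors. -/
lemma Gap.trichotomy {x y u v : ℤ} (h : Gap x y) (h' : Gap u v) :
    (x = u ∧ y = v) ∨ y ≤ u ∨ v ≤ x := by
  have h1 := h.between h'.1
  have h2 := h.between h'.2.1
  have h3 := h'.between h.1
  have h4 := h'.between h.2.1
  have := h.lt
  have := h'.lt
  omega

/-- Every real number of an interval between points of the complement lies in a gap inside. -/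
lemma exists_gap {p q : ℤ} (hp : ¬ Hole p) (hq : ¬ Hole q) (hpq : p < q) (t : ℝ)
    (h1 : (p : ℝ) ≤ t) (h2 : t ≤ q) :
    ∃ x y, Gap x y ∧ p ≤ x ∧ y ≤ q ∧ (x : ℝ) ≤ t ∧ t ≤ y := by
  rcases h2.lt_or_eq with h2 | h2
  · set n : ℤ := ⌊t⌋ with hn
    have hn1 : (n : ℝ) ≤ t := Int.floor_le t
    have hn2 : t < n + 1 := Int.lt_floor_add_one t
    have hpn : p ≤ n := Int.le_floor.mpr h1
    have hnq : n < q := by
      have : (n : ℝ) < q := lt_of_le_of_lt hn1 h2
      exact_mod_cast this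
    by_cases hh : Hole n
    · have ha := not_adj hh
      refine ⟨n - 1, n + 1, ⟨ha.2, ha.1, Or.inr ⟨by ring, by rwa [show n - 1 + 1 = n by ring]⟩⟩,
        ?_, by omega, ?_, ?_⟩
      · have : p ≠ n := fun h => hp (h ▸ hh)
        omega
      · push_cast; linarith
      · push_cast; linarith
    · obtain ⟨y, hy, hy2⟩ := gap_right hh
      refine ⟨n, y, hy, hpn, hy2 q hnq hq, hn1, ?_⟩
      have : (n : ℝ) + 1 ≤ y := by exact_mod_cast hy.lt
      linarith
  · obtain ⟨y, hy, hy2⟩ := gap_left hq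
    refine ⟨y, q, hy, hy2 p hpq hp, le_refl _, ?_, h2.le⟩
    rw [h2]; exact_mod_cast hy.lt.le

lemma exists_gap_univ (t : ℝ) : ∃ x y, Gap x y ∧ (x : ℝ) ≤ t ∧ t ≤ y := by
  have hp : ∃ p : ℤ, ¬ Hole p ∧ (p : ℝ) ≤ t := by
    refine ⟨5 * ⌊t / 5 - 1⌋ + 1, not_hole1 _, ?_⟩
    have := Int.floor_le (t / 5 - 1)
    push_cast; linarith
  have hq : ∃ q : ℤ, ¬ Hole q ∧ t < q := by
    refine ⟨5 * ⌈t / 5⌉ + 1, not_hole1 _, ?_⟩
    have := Int.le_ceil (t / 5)
    push_cast; linarith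
  obtain ⟨p, hp, hp2⟩ := hp
  obtain ⟨q, hq, hq2⟩ := hq
  have hpq : p < q := by
    have : (p : ℝ) < q := by linarith
    exact_mod_cast this
  obtain ⟨x, y, h, _, _, h3, h4⟩ := exists_gap hp hq hpq t hp2 hq2.le
  exact ⟨x, y, h, h3, h4⟩

/-- Local rule: membership at `5 s + d` depends only on `d` and on membership of `s`. -/
lemma hole_congr {m n : ℤ} (h : Hole m ↔ Hole n) (d : ℤ) (h0 : 0 ≤ d) (h5 : d < 5) :
    Hole (5 * m + d) ↔ Hole (5 * n + d) := by
  have : d = 0 ∨ d = 1 ∨ d = 2 ∨ d = 3 ∨ d = 4 := by omega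
  rcases this with rfl | rfl | rfl | rfl | rfl
  · simp only [add_zero, hole0, h]
  · simp only [not_hole1]
  · simp only [hole2]
  · simp only [not_hole3]
  · simp only [hole4, h]

/-- Deflation in dimension one. -/
lemma hole_deflate {x y x' y' : ℤ} (h : Gap x y) (h' : Gap x' y') (hl : y' - x' = y - x)
    {u : ℤ} (h1 : 5 * x ≤ u) (h2 : u ≤ 5 * y) : Hole (u + 5 * (x' - x)) ↔ Hole u := by
  have key : ∀ s, 0 ≤ s → s ≤ y - x → (Hole (x' + s) ↔ Hole (x + s)) := by
    intro s hs0 hs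
    rcases h with ⟨ha, hb, hc⟩
    rcases h' with ⟨ha', hb', hc'⟩
    rcases hc with hc | ⟨hc, hc2⟩
    · have : s = 0 ∨ s = 1 := by omega
      rcases this with rfl | rfl
      · simp only [add_zero, ha, ha']
      · have e1 : x' + 1 = y' := by omega
        have e2 : x + 1 = y := by omega
        rw [e1, e2]; simp only [hb, hb']
    · have hc2' : Hole (x' + 1) := by
        rcases hc' with h | ⟨_, h⟩
        · omega
        · exact h
      have : s = 0 ∨ s = 1 ∨ s = 2 := by omega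
      rcases this with rfl | rfl | rfl
      · simp only [add_zero, ha, ha']
      · simp only [hc2, hc2']
      · have e1 : x' + 2 = y' := by omega
        have e2 : x + 2 = y := by omega
        rw [e1, e2]; simp only [hb, hb']
  obtain ⟨s, d, hd0, hd5, hu⟩ : ∃ s d : ℤ, 0 ≤ d ∧ d < 5 ∧ u = 5 * (x + s) + d :=
    ⟨u / 5 - x, u % 5, Int.emod_nonneg _ (by norm_num), Int.emod_lt_of_pos _ (by norm_num), by
      have := Int.emod_add_mul_ediv u 5; linarith⟩
  have e : u + 5 * (x' - x) = 5 * (x' + s) + d := by rw [hu]; ring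
  rw [e, hu]
  exact hole_congr (key s (by omega) (by omega)) d hd0 hd5

lemma Gap.deflate {x y x' y' : ℤ} (h : Gap x y) (h' : Gap x' y') (hl : y' - x' = y - x)
    {u v : ℤ} (h1 : 5 * x ≤ u) (h2 : v ≤ 5 * y) (huv : Gap u v) :
    Gap (u + 5 * (x' - x)) (v + 5 * (x' - x)) := by
  have hlt := huv.lt
  refine ⟨?_, ?_, ?_⟩
  · rw [hole_deflate h h' hl h1 (by omega)]; exact huv.1
  · rw [hole_deflate h h' hl (by omega) h2]; exact huv.2.1
  · rcases huv.2.2 with h3 | ⟨h3, h4⟩
    · left; omega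
    · right
      refine ⟨by omega, ?_⟩
      have e : u + 5 * (x' - x) + 1 = (u + 1) + 5 * (x' - x) := by ring
      rw [e, hole_deflate h h' hl (by omega) (by omega)]
      exact h4

/-- Repetitivity in dimension one. -/
lemma hole_repeat (n : ℤ) (h0 : ¬ Hole n) (h1 : ¬ Hole (n + 1)) (h2 : ¬ Hole (n - 1)) :
    ∀ k : ℕ, ∀ t : ℤ, -(5 ^ k) ≤ t → t ≤ 5 ^ k → (Hole (5 ^ k * n + t) ↔ Hole t) := by
  intro k
  induction k with
  | zero =>
    intro t ht1 ht2
    have : t = 0 ∨ t = 1 ∨ t = -1 := by simp at ht1 ht2; omega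
    rcases this with rfl | rfl | rfl
    · simp [h0, not_hole_zero]
    · have := not_hole1 0
      simp only [mul_zero, zero_add] at this
      simp [h1, this]
    · have e : (5:ℤ) ^ 0 * n + -1 = n - 1 := by ring
      rw [e]
      simp only [h2, not_hole_neg_one]
  | succ k ih =>
    intro t ht1 ht2
    obtain ⟨s, d, hd0, hd5, hu⟩ : ∃ s d : ℤ, 0 ≤ d ∧ d < 5 ∧ t = 5 * s + d :=
      ⟨t / 5, t % 5, Int.emod_nonneg _ (by norm_num), Int.emod_lt_of_pos _ (by norm_num), by
        have := Int.emod_add_mul_ediv t 5; linarith⟩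
    have e : (5:ℤ) ^ (k+1) * n + t = 5 * (5 ^ k * n + s) + d := by rw [hu]; ring
    rw [pow_succ] at ht1 ht2
    rw [e, hu]
    exact hole_congr (ih s (by omega) (by omega)) d hd0 hd5

lemma not_hole_29 (i : ℤ) : ¬ Hole (125 * i + 29) ∧ ¬ Hole (125 * i + 29 + 1) ∧
    ¬ Hole (125 * i + 29 - 1) := by
  refine ⟨?_, ?_, ?_⟩
  · have e : 125 * i + 29 = 5 * (5 * (5 * i + 1)) + 4 := by ring
    rw [e, hole4, hole0]; exact not_hole1 _
  · have e : 125 * i + 29 + 1 = 5 * (5 * (5 * i + 1) + 1) := by ring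
    rw [e, hole0]; exact not_hole1 _
  · have e : 125 * i + 29 - 1 = 5 * (5 * (5 * i + 1)) + 3 := by ring
    rw [e]; exact not_hole3 _

lemma Gap.repeat {x y : ℤ} (h : Gap x y) (k : ℕ) (h1 : -(5 ^ k) ≤ x) (h2 : y ≤ 5 ^ k) (i : ℤ) :
    Gap (5 ^ k * (125 * i + 29) + x) (5 ^ k * (125 * i + 29) + y) := by
  obtain ⟨a, b, c⟩ := not_hole_29 i
  have hlt := h.lt
  have key := hole_repeat _ a b c k
  refine ⟨?_, ?_, ?_⟩
  · rw [key x h1 (by omega)]; exact h.1
  · rw [key y (by omega) h2]; exact h.2.1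
  · rcases h.2.2 with h3 | ⟨h3, h4⟩
    · left; omega
    · right
      refine ⟨by omega, ?_⟩
      have e : 5 ^ k * (125 * i + 29) + x + 1 = 5 ^ k * (125 * i + 29) + (x + 1) := by ring
      rw [e, key (x+1) (by omega) (by omega)]
      exact h4


/-- A tiling of `ℝ ^ d` by translates of finitely many polytopes, face-to-face. -/
structure IsTiling {d : ℕ} (𝒯 : Set (Set (E d))) : Prop where
  polytope : ∀ T ∈ 𝒯, IsPolytope T
  finite_prototiles : ∃ F : Set (Set (E d)), F.Finite ∧ ∀ T ∈ 𝒯, ∃ S ∈ F, ∃ v, T = shift v S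
  cover : ⋃₀ 𝒯 = Set.univ
  packing : ∀ S ∈ 𝒯, ∀ T ∈ 𝒯, S ≠ T → Disjoint (interior S) (interior T)
  face_to_face : ∀ S ∈ 𝒯, ∀ T ∈ 𝒯, IsExtreme ℝ S (S ∩ T)

/-- The linear map `ℝ ^ d → ℝ ^ d` with matrix `A`. -/
def act {d : ℕ} (A : Matrix (Fin d) (Fin d) ℝ) (p : E d) : E d := WithLp.toLp 2 (A.mulVec p.ofLp)

/-- The linear map with matrix `A` is diagonalizable over `ℂ` with all eigenvalues of modulus
larger than `1`. -/
def IsExpansive {d : ℕ} (A : Matrix (Fin d) (Fin d) ℝ) : Prop :=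
  ∃ (Q : Matrix (Fin d) (Fin d) ℂ) (D : Fin d → ℂ), IsUnit Q ∧
    A.map (fun t : ℝ => (t : ℂ)) * Q = Q * Matrix.diagonal D ∧ ∀ i, 1 < ‖D i‖

/-- A self-affine tiling whose expansive map `φ = act A` has matrix `A`.  A patch is given by the
finite set `𝒜` of its tiles. -/
structure IsSelfAffine {d : ℕ} (𝒯 : Set (Set (E d))) (A : Matrix (Fin d) (Fin d) ℝ) : Prop where
  tiling : IsTiling 𝒯
  expansive : IsExpansive A
  repetitive : ∀ 𝒜 ⊆ 𝒯, 𝒜.Finite → ∃ R > 0, ∀ x : E d, ∃ v : E d, ∀ T ∈ 𝒜,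
    shift v T ∈ 𝒯 ∧ shift v T ⊆ Metric.ball x R
  inflation : ∀ T ∈ 𝒯, ∃ 𝒜 ⊆ 𝒯, 𝒜.Finite ∧ act A '' T = ⋃₀ 𝒜
  deflation : ∀ S ∈ 𝒯, ∀ T ∈ 𝒯, (∃ v, T = shift v S) →
    ∃ w, {B | B ∈ 𝒯 ∧ B ⊆ act A '' T} = shift w '' {B | B ∈ 𝒯 ∧ B ⊆ act A '' S}

/-- The vertices of the tiles. -/
def vertices {d : ℕ} (𝒯 : Set (Set (E d))) : Set (E d) := {p | ∃ T ∈ 𝒯, p ∈ T.extremePoints ℝ}

/-- The tile with corners `2 x` and `2 y`. -/
def tile {d : ℕ} (x y : Fin d → ℤ) : Set (E d) :=
  rbox (fun i => 2 * (x i : ℝ)) (fun i => 2 * (y i : ℝ))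

/-- The tiles: products of (doubled) gaps. -/
def tiles (d : ℕ) : Set (Set (E d)) :=
  {T | ∃ x y : Fin d → ℤ, (∀ i, Gap (x i) (y i)) ∧ T = tile x y}

lemma rbox_inj {d : ℕ} {a b a' b' : Fin d → ℝ} (h : ∀ i, a i ≤ b i) (h' : ∀ i, a' i ≤ b' i)
    (he : rbox a b = rbox a' b') : a = a' ∧ b = b' := by
  have h1 : WithLp.toLp 2 a ∈ rbox a' b' := he ▸ (fun i => ⟨le_refl _, h i⟩ : WithLp.toLp 2 a ∈ rbox a b)
  have h2 : WithLp.toLp 2 b ∈ rbox a' b' := he ▸ (fun i => ⟨h i, le_refl _⟩ : WithLp.toLp 2 b ∈ rbox a b)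
  have h3 : WithLp.toLp 2 a' ∈ rbox a b := he ▸ (fun i => ⟨le_refl _, h' i⟩ : WithLp.toLp 2 a' ∈ rbox a' b')
  have h4 : WithLp.toLp 2 b' ∈ rbox a b := he ▸ (fun i => ⟨h' i, le_refl _⟩ : WithLp.toLp 2 b' ∈ rbox a' b')
  exact ⟨funext fun i => le_antisymm (h3 i).1 (h1 i).1, funext fun i => le_antisymm (h2 i).2 (h4 i).2⟩

lemma shift_rbox {d : ℕ} (v : E d) (a b : Fin d → ℝ) :
    shift v (rbox a b) = rbox (fun i => v i + a i) (fun i => v i + b i) := by
  ext p
  constructor
  · rintro ⟨q, hq, rfl⟩ i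
    have := hq i
    simp only [PiLp.add_apply]
    constructor <;> linarith
  · intro h
    refine ⟨p - v, fun i => ?_, by simp⟩
    have := h i
    simp only [PiLp.sub_apply]
    constructor <;> linarith

lemma tile_le {d : ℕ} {x y : Fin d → ℤ} (h : ∀ i, Gap (x i) (y i)) :
    ∀ i, 2 * (x i : ℝ) ≤ 2 * (y i : ℝ) := by
  intro i
  have : (x i : ℝ) < y i := by exact_mod_cast (h i).lt
  linarith

lemma tile_lt {d : ℕ} {x y : Fin d → ℤ} (h : ∀ i, Gap (x i) (y i)) :
    ∀ i, 2 * (x i : ℝ) < 2 * (y i : ℝ) := by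
  intro i
  have : (x i : ℝ) < y i := by exact_mod_cast (h i).lt
  linarith

lemma interior_tile {d : ℕ} (x y : Fin d → ℤ) :
    interior (tile x y) = obox (fun i => 2 * (x i : ℝ)) (fun i => 2 * (y i : ℝ)) := interior_rbox _ _

lemma obox_disjoint {d : ℕ} {x y u v : Fin d → ℤ} (i : Fin d) (h : y i ≤ u i ∨ v i ≤ x i) :
    Disjoint (interior (tile x y)) (interior (tile u v)) := by
  rw [interior_tile, interior_tile, Set.disjoint_left]
  intro p hp hq
  have h1 := hp i
  have h2 := hq i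
  rcases h with h | h
  · have : (y i : ℝ) ≤ u i := by exact_mod_cast h
    linarith
  · have : (v i : ℝ) ≤ x i := by exact_mod_cast h
    linarith

lemma disjoint_or_eq {d : ℕ} {x y u v : Fin d → ℤ} (h : ∀ i, Gap (x i) (y i))
    (h' : ∀ i, Gap (u i) (v i)) (hne : tile x y ≠ tile u v) : ∃ i, y i ≤ u i ∨ v i ≤ x i := by
  by_contra hcon
  push Not at hcon
  apply hne
  have : ∀ i, x i = u i ∧ y i = v i := by
    intro i
    rcases (h i).trichotomy (h' i) with h1 | h1 | h1
    · exact h1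
    · have := (hcon i).1; omega
    · have := (hcon i).2; omega
  have h1 : x = u := funext fun i => (this i).1
  have h2 : y = v := funext fun i => (this i).2
  rw [h1, h2]

lemma isTiling_tiles (d : ℕ) : IsTiling (tiles d) where
  polytope := by
    rintro T ⟨x, y, h, rfl⟩
    refine ⟨rbox_hull _ _ (tile_le h), ?_⟩
    rw [interior_tile]
    refine ⟨WithLp.toLp 2 (fun i => (x i : ℝ) + y i), fun i => ?_⟩
    have := tile_lt h i
    simp only
    constructor <;> linarith
  finite_prototiles := by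
    refine ⟨Set.range (fun g : Fin d → Fin 2 => rbox (fun _ => 0) (fun i => 2 * ((((g i : Fin 2) : ℕ) : ℝ) + 1))),
      Set.finite_range _, ?_⟩
    rintro T ⟨x, y, h, rfl⟩
    have hg : ∀ i, ∃ g : Fin 2, (y i : ℝ) = x i + ((g : ℕ) : ℝ) + 1 := by
      intro i
      rcases (h i).2.2 with h1 | ⟨h1, _⟩
      · exact ⟨0, by rw [h1]; push_cast; simp⟩
      · refine ⟨1, by rw [h1]; push_cast; simp; norm_num [add_assoc]⟩
    choose g hg using hg
    refine ⟨_, ⟨g, rfl⟩, WithLp.toLp 2 (fun i => 2 * (x i : ℝ)), ?_⟩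
    rw [shift_rbox, tile]
    congr 1
    · funext i; simp
    · funext i; simp only; rw [hg i]; ring
  cover := by
    rw [Set.eq_univ_iff_forall]
    intro p
    have := fun i => exists_gap_univ (p i / 2)
    choose x y h1 h2 h3 using this
    refine ⟨tile x y, ⟨x, y, h1, rfl⟩, fun i => ?_⟩
    have a := h2 i
    have b := h3 i
    constructor <;> linarith
  packing := by
    rintro S ⟨x, y, h, rfl⟩ T ⟨u, v, h', rfl⟩ hne
    obtain ⟨i, hi⟩ := disjoint_or_eq h h' hne
    exact obox_disjoint i hi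
  face_to_face := by
    rintro S ⟨x, y, h, rfl⟩ T ⟨u, v, h', rfl⟩
    refine ⟨Set.inter_subset_left, ?_⟩
    rintro p hp q hq z ⟨hz1, hz2⟩ ⟨a, b, ha, hb, hab, hz⟩
    refine ⟨hp, fun i => ?_⟩
    have hzi : a * p i + b * q i = z i := by rw [← hz]; simp
    have e1 := hp i
    have e2 := hq i
    have e3 := hz2 i
    have e4 := hz1 i
    simp only at e1 e2 e3 e4 ⊢
    rcases (h i).trichotomy (h' i) with ⟨h1, h2⟩ | h1 | h1
    · rw [← h1, ← h2]; exact e1
    · have h2 : (y i : ℝ) ≤ u i := by exact_mod_cast h1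
      have h3 : (u i : ℝ) ≤ v i := by exact_mod_cast (h' i).lt.le
      have h4 : z i = 2 * (y i : ℝ) := by linarith
      have h5 : (u i : ℝ) = y i := by linarith
      have h6 : p i = 2 * (y i : ℝ) := by
        have hb' : b = 1 - a := by linarith
        subst hb'
        nlinarith
      rw [h6]; constructor <;> linarith
    · have h2 : (v i : ℝ) ≤ x i := by exact_mod_cast h1
      have h3 : (u i : ℝ) ≤ v i := by exact_mod_cast (h' i).lt.le
      have h4 : z i = 2 * (x i : ℝ) := by linarith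
      have h5 : (v i : ℝ) = x i := by linarith
      have h6 : p i = 2 * (x i : ℝ) := by
        have hb' : b = 1 - a := by linarith
        subst hb'
        nlinarith
      rw [h6]; constructor <;> linarith

/-- The matrix of the inflation map, multiplication by `5`. -/
def phi (d : ℕ) : Matrix (Fin d) (Fin d) ℝ := Matrix.diagonal fun _ => 5

lemma phi_apply {d : ℕ} (p : E d) : act (phi d) p = (5 : ℝ) • p := by
  ext i
  simp [act, phi]

lemma phi_pow_apply {d : ℕ} (k : ℕ) (p : E d) : (act (phi d))^[k] p = (5 : ℝ) ^ k • p := by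
  induction k with
  | zero => simp
  | succ k ih =>
    rw [Function.iterate_succ_apply', ih, phi_apply, smul_smul, pow_succ']

lemma image_phi_pow {d : ℕ} (k : ℕ) (a b : Fin d → ℝ) :
    (act (phi d))^[k] '' rbox a b = rbox (fun i => 5 ^ k * a i) (fun i => 5 ^ k * b i) := by
  have h5 : (0 : ℝ) < 5 ^ k := by positivity
  ext p
  constructor
  · rintro ⟨q, hq, rfl⟩ i
    rw [phi_pow_apply]
    simp only [PiLp.smul_apply, smul_eq_mul]
    exact ⟨mul_le_mul_of_nonneg_left (hq i).1 h5.le, mul_le_mul_of_nonneg_left (hq i).2 h5.le⟩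
  · intro hp
    refine ⟨((5 : ℝ) ^ k)⁻¹ • p, fun i => ?_, ?_⟩
    · simp only [PiLp.smul_apply, smul_eq_mul]
      have := hp i
      rw [inv_mul_eq_div, le_div_iff₀ h5, div_le_iff₀ h5]
      constructor <;> linarith
    · rw [phi_pow_apply, smul_smul, mul_inv_cancel₀ h5.ne', one_smul]

lemma image_phi {d : ℕ} (a b : Fin d → ℝ) :
    act (phi d) '' rbox a b = rbox (fun i => 5 * a i) (fun i => 5 * b i) := by
  have := image_phi_pow 1 a b
  simpa using this

lemma image_phi_tile {d : ℕ} (x y : Fin d → ℤ) :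
    act (phi d) '' tile x y = tile (fun i => 5 * x i) (fun i => 5 * y i) := by
  rw [tile, image_phi, tile]
  congr 1
  · funext i; push_cast; ring
  · funext i; push_cast; ring

lemma image_phi_pow_tile {d : ℕ} (k : ℕ) (x y : Fin d → ℤ) :
    (act (phi d))^[k] '' tile x y = tile (fun i => 5 ^ k * x i) (fun i => 5 ^ k * y i) := by
  rw [tile, image_phi_pow, tile]
  congr 1
  · funext i; push_cast; ring
  · funext i; push_cast; ring

lemma isExpansive_phi (d : ℕ) : IsExpansive (phi d) := by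
  refine ⟨1, fun _ => 5, isUnit_one, ?_, fun _ => by norm_num⟩
  rw [phi, mul_one, one_mul]
  ext i j
  rw [Matrix.map_apply, Matrix.diagonal_apply, Matrix.diagonal_apply]
  split_ifs <;> simp

lemma bounded_rbox {d : ℕ} (a b : Fin d → ℝ) (h : ∀ i, a i ≤ b i) :
    Bornology.IsBounded (rbox a b) := by
  obtain ⟨s, hs, he⟩ := rbox_hull a b h
  rw [he, isBounded_convexHull]
  exact hs.isBounded

lemma tile_subset {d : ℕ} {x y u v : Fin d → ℤ} (hx : ∀ i, x i ≤ u i) (hy : ∀ i, v i ≤ y i) :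
    (tile u v : Set (E d)) ⊆ tile x y := by
  intro p hp i
  have h1 : (x i : ℝ) ≤ u i := by exact_mod_cast hx i
  have h2 : (v i : ℝ) ≤ y i := by exact_mod_cast hy i
  have := hp i
  constructor <;> linarith

lemma of_tile_subset {d : ℕ} {x y u v : Fin d → ℤ} (huv : ∀ i, u i ≤ v i)
    (h : (tile u v : Set (E d)) ⊆ tile x y) : (∀ i, x i ≤ u i) ∧ (∀ i, v i ≤ y i) := by
  have huv' : ∀ i, 2 * (u i : ℝ) ≤ 2 * (v i : ℝ) := by
    intro i
    have : (u i : ℝ) ≤ v i := by exact_mod_cast huv i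
    linarith
  have h1 : WithLp.toLp 2 (fun i => 2 * (u i : ℝ)) ∈ (tile x y : Set (E d)) :=
    h (fun i => ⟨le_refl _, huv' i⟩)
  have h2 : WithLp.toLp 2 (fun i => 2 * (v i : ℝ)) ∈ (tile x y : Set (E d)) :=
    h (fun i => ⟨huv' i, le_refl _⟩)
  constructor
  · intro i
    have := (h1 i).1
    simp only at this
    have h3 : (x i : ℝ) ≤ u i := by linarith
    exact_mod_cast h3
  · intro i
    have := (h2 i).2
    simp only at this
    have h3 : (v i : ℝ) ≤ y i := by linarith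
    exact_mod_cast h3

lemma shift_tile {d : ℕ} (w : E d) (z x y : Fin d → ℤ) (hw : ∀ i, w i = 2 * (z i : ℝ)) :
    shift w (tile x y) = tile (fun i => x i + z i) (fun i => y i + z i) := by
  rw [tile, shift_rbox, tile]
  congr 1
  · funext i; rw [hw i]; push_cast; ring
  · funext i; rw [hw i]; push_cast; ring

lemma deflate_aux {d : ℕ} {x y x' y' : Fin d → ℤ} (h : ∀ i, Gap (x i) (y i))
    (h' : ∀ i, Gap (x' i) (y' i)) (hl : ∀ i, y' i - x' i = y i - x i) (w : E d)
    (hw : ∀ i, w i = 2 * ((5 * (x' i - x i) : ℤ) : ℝ)) {A : Set (E d)} (hA : A ∈ tiles d)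
    (hs : A ⊆ act (phi d) '' tile x y) : shift w A ∈ tiles d ∧ shift w A ⊆ act (phi d) '' tile x' y' := by
  obtain ⟨u, v, huv, rfl⟩ := hA
  rw [image_phi_tile] at hs ⊢
  obtain ⟨h1, h2⟩ := of_tile_subset (fun i => (huv i).lt.le) hs
  rw [shift_tile w _ u v hw]
  refine ⟨⟨_, _, fun i => ?_, rfl⟩, ?_⟩
  · exact Gap.deflate (h i) (h' i) (hl i) (h1 i) (h2 i) (huv i)
  · apply tile_subset
    · intro i; have := h1 i; omega
    · intro i; have := h2 i; have := hl i; omega

lemma shift_neg_shift {d : ℕ} (w : E d) (A : Set (E d)) : shift w (shift (-w) A) = A := by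
  rw [shift, shift, Set.image_image]
  simp

lemma isSelfAffine (d : ℕ) : IsSelfAffine (tiles d) (phi d) where
  tiling := isTiling_tiles d
  expansive := isExpansive_phi d
  repetitive := by
    intro 𝒜 h𝒜 hfin
    have hb : Bornology.IsBounded (⋃₀ 𝒜) := by
      rw [Bornology.isBounded_sUnion hfin]
      intro T hT
      obtain ⟨x, y, h, rfl⟩ := h𝒜 hT
      exact bounded_rbox _ _ (tile_le h)
    obtain ⟨M, hM⟩ := hb.subset_closedBall 0
    obtain ⟨k, hk⟩ : ∃ k : ℕ, M < 5 ^ k := pow_unbounded_of_one_lt M (by norm_num)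
    refine ⟨(d + 1) * (252 * 5 ^ k), by positivity, ?_⟩
    intro x
    refine ⟨WithLp.toLp 2 (fun i => 2 * ((5 ^ k * (125 * ⌊x i / (250 * 5 ^ k)⌋ + 29) : ℤ) : ℝ)), ?_⟩
    intro T hT
    obtain ⟨u, v, huv, rfl⟩ := h𝒜 hT
    have hbd : ∀ i, -(5 ^ k) ≤ u i ∧ v i ≤ 5 ^ k := by
      intro i
      have h1 : WithLp.toLp 2 (fun i => 2 * (u i : ℝ)) ∈ Metric.closedBall (0 : E d) M :=
        hM ⟨_, hT, fun i => ⟨le_refl _, tile_le huv i⟩⟩
      have h2 : WithLp.toLp 2 (fun i => 2 * (v i : ℝ)) ∈ Metric.closedBall (0 : E d) M :=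
        hM ⟨_, hT, fun i => ⟨tile_le huv i, le_refl _⟩⟩
      rw [mem_closedBall_zero_iff] at h1 h2
      have h3 := (PiLp.norm_apply_le _ i).trans h1
      have h4 := (PiLp.norm_apply_le _ i).trans h2
      simp only [Real.norm_eq_abs] at h3 h4
      rw [abs_le] at h3 h4
      have h5 : (0:ℝ) < 5 ^ k := by positivity
      constructor
      · have : -((5 : ℝ) ^ k) ≤ u i := by linarith [h3.1]
        exact_mod_cast this
      · have : (v i : ℝ) ≤ 5 ^ k := by linarith [h4.2]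
        exact_mod_cast this
    have hst := shift_tile (WithLp.toLp 2 (fun i => 2 * ((5 ^ k * (125 * ⌊x i / (250 * 5 ^ k)⌋ + 29) : ℤ) : ℝ)))
      (fun i => 5 ^ k * (125 * ⌊x i / (250 * 5 ^ k)⌋ + 29)) u v (fun i => rfl)
    rw [hst]
    refine ⟨⟨_, _, fun i => ?_, rfl⟩, ?_⟩
    · have := Gap.repeat (huv i) k (hbd i).1 (hbd i).2 ⌊x i / (250 * 5 ^ k)⌋
      rw [add_comm (u i), add_comm (v i)]
      exact this
    · intro p hp
      have h5 : (0:ℝ) < 5 ^ k := by positivity
      rw [Metric.mem_ball, EuclideanSpace.dist_eq, Real.sqrt_lt' (by positivity)]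
      have hi : ∀ i, dist (p i) (x i) ^ 2 ≤ (252 * 5 ^ k) ^ 2 := by
        intro i
        have h6 := hp i
        have h7 : (-(5:ℝ) ^ k) ≤ u i := by exact_mod_cast (hbd i).1
        have h8 : (v i : ℝ) ≤ 5 ^ k := by exact_mod_cast (hbd i).2
        have h9 := Int.floor_le (x i / (250 * 5 ^ k))
        have h10 := Int.lt_floor_add_one (x i / (250 * 5 ^ k))
        rw [le_div_iff₀ (by positivity)] at h9
        rw [div_lt_iff₀ (by positivity)] at h10
        simp only at h6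
        push_cast at h6
        have : |p i - x i| ≤ 252 * 5 ^ k := by
          rw [abs_le]
          constructor <;> nlinarith
        rw [Real.dist_eq, sq_abs]
        exact sq_le_sq' (by linarith [(abs_le.mp this).1]) (abs_le.mp this).2
      calc ∑ i, dist (p i) (x i) ^ 2 ≤ ∑ i : Fin d, (252 * (5:ℝ) ^ k) ^ 2 := Finset.sum_le_sum fun i _ => hi i
        _ = d * (252 * 5 ^ k) ^ 2 := by simp
        _ < ((d + 1) * (252 * 5 ^ k)) ^ 2 := by
          have h11 : ((d + 1) * (252 * (5:ℝ) ^ k)) ^ 2 = ((d:ℝ) + 1) ^ 2 * (252 * 5 ^ k) ^ 2 := by ring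
          rw [h11]
          have : (d : ℝ) < (d + 1) ^ 2 := by nlinarith [(Nat.cast_nonneg d : (0:ℝ) ≤ d)]
          exact mul_lt_mul_of_pos_right this (by positivity)
  inflation := by
    rintro T ⟨x, y, h, rfl⟩
    refine ⟨{A | ∃ u v : Fin d → ℤ, (∀ i, Gap (u i) (v i) ∧ 5 * x i ≤ u i ∧ v i ≤ 5 * y i) ∧ A = tile u v},
      ?_, ?_, ?_⟩
    · rintro A ⟨u, v, huv, rfl⟩
      exact ⟨u, v, fun i => (huv i).1, rfl⟩
    · refine Set.Finite.subset (((Set.finite_Icc (fun i => 5 * x i) (fun i => 5 * y i)).prod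
        (Set.finite_Icc (fun i => 5 * x i) (fun i => 5 * y i))).image
        (fun q : (Fin d → ℤ) × (Fin d → ℤ) => tile q.1 q.2)) ?_
      rintro A ⟨u, v, huv, rfl⟩
      refine ⟨(u, v), ⟨⟨fun i => (huv i).2.1, fun i => ?_⟩, ⟨fun i => ?_, fun i => (huv i).2.2⟩⟩, rfl⟩
      · have := (huv i).1.lt; have := (huv i).2.2; simp only; omega
      · have := (huv i).1.lt; have := (huv i).2.1; simp only; omega
    · rw [image_phi_tile]
      ext p
      constructor
      · intro hp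
        have hgap : ∀ i, ∃ u v, Gap u v ∧ 5 * x i ≤ u ∧ v ≤ 5 * y i ∧ (u : ℝ) ≤ p i / 2 ∧ p i / 2 ≤ v := by
          intro i
          apply exists_gap
          · rw [hole0]; exact (h i).1
          · rw [hole0]; exact (h i).2.1
          · have := (h i).lt; omega
          · have := (hp i).1; simp only at this; linarith
          · have := (hp i).2; simp only at this; linarith
        choose u v h1 h2 h3 h4 h5 using hgap
        refine ⟨tile u v, ⟨u, v, fun i => ⟨h1 i, h2 i, h3 i⟩, rfl⟩, fun i => ?_⟩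
        have a := h4 i
        have b := h5 i
        constructor <;> linarith
      · rintro ⟨A, ⟨u, v, huv, rfl⟩, hp⟩
        exact tile_subset (fun i => (huv i).2.1) (fun i => (huv i).2.2) hp
  deflation := by
    rintro S ⟨x, y, h, rfl⟩ T ⟨x', y', h', rfl⟩ ⟨v, hv⟩
    rw [tile, tile, shift_rbox] at hv
    have hle : ∀ i, v i + 2 * (x i : ℝ) ≤ v i + 2 * (y i : ℝ) := fun i => by
      have := tile_le h i; linarith
    obtain ⟨e1, e2⟩ := rbox_inj (tile_le h') hle hv
    have e1' : ∀ i, 2 * (x' i : ℝ) = v i + 2 * x i := fun i => congrFun e1 i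
    have e2' : ∀ i, 2 * (y' i : ℝ) = v i + 2 * y i := fun i => congrFun e2 i
    have hl : ∀ i, y' i - x' i = y i - x i := by
      intro i
      have : ((y' i - x' i : ℤ) : ℝ) = ((y i - x i : ℤ) : ℝ) := by
        push_cast; linarith [e1' i, e2' i]
      exact_mod_cast this
    set w : E d := WithLp.toLp 2 (fun i => 2 * ((5 * (x' i - x i) : ℤ) : ℝ)) with hw
    refine ⟨w, ?_⟩
    ext A
    constructor
    · rintro ⟨hA, hs⟩
      have := deflate_aux h' h (fun i => (hl i).symm) (-w) (fun i => by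
        simp only [PiLp.neg_apply, hw]; push_cast; ring) hA hs
      exact ⟨shift (-w) A, this, shift_neg_shift w A⟩
    · rintro ⟨B, ⟨hB, hs⟩, rfl⟩
      exact deflate_aux h h' hl w (fun i => rfl) hB hs

lemma mem_vertices {d : ℕ} (p : E d) :
    p ∈ vertices (tiles d) ↔ ∀ i, ∃ n : ℤ, ¬ Hole n ∧ p i = 2 * (n : ℝ) := by
  constructor
  · rintro ⟨T, ⟨x, y, h, rfl⟩, hp⟩ i
    rw [tile, extreme_rbox _ _ (tile_le h)] at hp
    rcases hp i with h1 | h1
    · exact ⟨x i, (h i).1, h1⟩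
    · exact ⟨y i, (h i).2.1, h1⟩
  · intro hp
    choose n h1 h2 using hp
    choose y h3 h4 using fun i => gap_right (h1 i)
    refine ⟨tile n y, ⟨n, y, h3, rfl⟩, ?_⟩
    rw [tile, extreme_rbox _ _ (tile_le h3)]
    exact fun i => Or.inl (h2 i)

lemma separated (d : ℕ) : ∀ p ∈ vertices (tiles d), ∀ q ∈ vertices (tiles d), p ≠ q → 2 ≤ dist p q := by
  intro p hp q hq hne
  rw [mem_vertices] at hp hq
  have : ∃ i, p i ≠ q i := by
    by_contra hcon
    push Not at hcon
    exact hne (by ext i; exact hcon i)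
  obtain ⟨i, hi⟩ := this
  obtain ⟨n, _, hn⟩ := hp i
  obtain ⟨m, _, hm⟩ := hq i
  have hnm : n ≠ m := by
    rintro rfl
    exact hi (by rw [hn, hm])
  have h1 : (1 : ℝ) ≤ |(n : ℝ) - m| := by
    have : (1 : ℤ) ≤ |n - m| := Int.one_le_abs (sub_ne_zero.mpr hnm)
    exact_mod_cast this
  have h2 : |p i - q i| ≤ dist p q := by
    rw [dist_eq_norm]
    have := PiLp.norm_apply_le (p - q) i
    simpa [Real.norm_eq_abs] using this
  have h3 : |p i - q i| = 2 * |(n : ℝ) - m| := by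
    rw [hn, hm, ← mul_sub, abs_mul]; norm_num
  linarith

lemma hole_aperiodic : ∀ N : ℕ, ∀ z : ℤ, z.natAbs ≤ N → (∀ n, Hole n → Hole (n + z)) → z = 0 := by
  intro N
  induction N with
  | zero => intro z hz _; omega
  | succ N ih =>
    intro z hz h
    by_cases hd : z % 5 = 0
    · obtain ⟨w, rfl⟩ : ∃ w, z = 5 * w := ⟨z / 5, by omega⟩
      by_cases hw : w = 0
      · omega
      · have : w = 0 := by
          apply ih w (by omega)
          intro n hn
          have h1 := h (5 * n) ((hole0 n).2 hn)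
          rw [← mul_add] at h1
          exact (hole0 _).1 h1
        omega
    · exfalso
      have h1 := h (5 * (-((2 + z) / 5)) + 2) (hole2 _)
      have h2 : 5 * (-((2 + z) / 5)) + 2 + z = (2 + z) % 5 := by omega
      rw [h2] at h1
      have h3 : (2 + z) % 5 = 0 ∨ (2 + z) % 5 = 1 ∨ (2 + z) % 5 = 3 ∨ (2 + z) % 5 = 4 := by omega
      rcases h3 with h3 | h3 | h3 | h3
      · rw [h3] at h1; exact not_hole_zero h1
      · rw [h3] at h1; exact not_hole1 0 h1
      · rw [h3] at h1; exact not_hole3 0 h1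
      · rw [h3] at h1
        have h4 := hole4 0
        simp only [mul_zero, zero_add] at h4
        exact not_hole_zero (h4.1 h1)

lemma aperiodic (d : ℕ) (v : E d) (h : ∀ T ∈ tiles d, shift v T ∈ tiles d) : v = 0 := by
  ext i
  -- the tile with all gaps `[1, 3]`
  have hgap : ∀ n, Hole n → Gap (n - 1) (n + 1) := by
    intro n hn
    have ha := not_adj hn
    exact ⟨ha.2, ha.1, Or.inr ⟨by ring, by rwa [show n - 1 + 1 = n by ring]⟩⟩
  have key : ∀ n, Hole n → ∃ z : ℤ, v i = 2 * (z : ℝ) ∧ Hole (n + z) := by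
    intro n hn
    have hT : tile (fun _ : Fin d => n - 1) (fun _ => n + 1) ∈ tiles d := ⟨_, _, fun _ => hgap n hn, rfl⟩
    obtain ⟨x, y, hxy, he⟩ := h _ hT
    rw [tile, shift_rbox, tile] at he
    have hle : ∀ i, v i + 2 * ((n - 1 : ℤ) : ℝ) ≤ v i + 2 * ((n + 1 : ℤ) : ℝ) := fun i => by
      push_cast; linarith
    obtain ⟨e1, e2⟩ := rbox_inj hle (tile_le hxy) he
    have e1' := congrFun e1 i
    have e2' := congrFun e2 i
    simp only at e1' e2'
    refine ⟨x i - (n - 1), by push_cast at e1' ⊢; linarith, ?_⟩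
    have e3 : y i = x i + 2 := by
      have : (y i : ℝ) = x i + 2 := by push_cast at e1' e2'; linarith
      exact_mod_cast this
    rcases (hxy i).2.2 with h1 | ⟨_, h1⟩
    · omega
    · rwa [show n + (x i - (n - 1)) = x i + 1 by ring]
  obtain ⟨z, hz, _⟩ := key 2 (hole2 0)
  have hz0 : z = 0 := by
    apply hole_aperiodic z.natAbs z le_rfl
    intro n hn
    obtain ⟨z', hz', hh⟩ := key n hn
    have : z' = z := by
      have : (z' : ℝ) = z := by linarith
      exact_mod_cast this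
    rwa [this] at hh
  rw [hz, hz0]; simp

open Classical in
/-- Number of non-holes in `[p, p + n)`. -/
noncomputable def c (p : ℤ) (n : ℕ) : ℕ := ∑ i ∈ Finset.range n, if Hole (p + i) then 0 else 1

lemma c_five (p : ℤ) (n : ℕ) : c (5 * p) (5 * n) = 2 * n + 2 * c p n := by
  classical
  induction n with
  | zero => simp [c]
  | succ n ih =>
    have h1 : c (5 * p) (5 * (n + 1)) = c (5 * p) (5 * n) +
        (if Hole (5 * (p + n)) then 0 else 1) + (if Hole (5 * (p + n) + 1) then 0 else 1) +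
        (if Hole (5 * (p + n) + 2) then 0 else 1) + (if Hole (5 * (p + n) + 3) then 0 else 1) +
        (if Hole (5 * (p + n) + 4) then 0 else 1) := by
      have e : 5 * (n + 1) = 5 * n + 1 + 1 + 1 + 1 + 1 := by ring
      rw [e]
      simp only [c, Finset.sum_range_succ]
      have e0 : 5 * p + ((5 * n : ℕ) : ℤ) = 5 * (p + n) := by push_cast; ring
      have e1 : 5 * p + ((5 * n + 1 : ℕ) : ℤ) = 5 * (p + n) + 1 := by push_cast; ring
      have e2 : 5 * p + ((5 * n + 1 + 1 : ℕ) : ℤ) = 5 * (p + n) + 2 := by push_cast; ring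
      have e3 : 5 * p + ((5 * n + 1 + 1 + 1 : ℕ) : ℤ) = 5 * (p + n) + 3 := by push_cast; ring
      have e4 : 5 * p + ((5 * n + 1 + 1 + 1 + 1 : ℕ) : ℤ) = 5 * (p + n) + 4 := by push_cast; ring
      rw [e0, e1, e2, e3, e4]
    have h2 : c p (n + 1) = c p n + (if Hole (p + n) then 0 else 1) := by
      simp only [c, Finset.sum_range_succ]
    rw [h1, h2, ih]
    simp only [hole0, hole4, hole2, not_hole1, not_hole3, if_true, if_false]
    split_ifs <;> ring

lemma c_pow (p : ℤ) (n k : ℕ) :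
    3 * (c (5 ^ k * p) (5 ^ k * n) : ℤ) = 2 * 5 ^ k * n + 2 ^ k * (3 * c p n - 2 * n) := by
  induction k with
  | zero => simp
  | succ k ih =>
    have e1 : (5 : ℤ) ^ (k + 1) * p = 5 * (5 ^ k * p) := by ring
    have e2 : 5 ^ (k + 1) * n = 5 * (5 ^ k * n) := by ring
    rw [e1, e2, c_five]
    push_cast
    rw [pow_succ, pow_succ]
    linear_combination 2 * ih

open Classical in
lemma card_Ico (p : ℤ) (n : ℕ) : ((Finset.Ico p (p + n)).filter (fun m => ¬ Hole m)).card = c p n := by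
  induction n with
  | zero => simp [c]
  | succ n ih =>
    have h1 : Finset.Ico p (p + ((n + 1 : ℕ) : ℤ)) = insert (p + (n : ℤ)) (Finset.Ico p (p + n)) := by
      ext m; simp only [Finset.mem_Ico, Finset.mem_insert]; push_cast; omega
    have h2 : (p + (n : ℤ)) ∉ Finset.Ico p (p + (n : ℤ)) := by simp
    have h3 : c p (n + 1) = c p n + (if Hole (p + n) then 0 else 1) := by
      simp only [c, Finset.sum_range_succ]
    rw [h1, Finset.filter_insert, h3]
    split_ifs with h4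
    · rw [ih]; simp
    · rw [Finset.card_insert_of_notMem (by simp [h2]), ih]

open Classical in
lemma card_Icc (p : ℤ) (n : ℕ) (h : ¬ Hole (p + n)) :
    ((Finset.Icc p (p + n)).filter (fun m => ¬ Hole m)).card = c p n + 1 := by
  have h1 : Finset.Icc p (p + (n : ℤ)) = insert (p + (n : ℤ)) (Finset.Ico p (p + n)) := by
    ext m; simp only [Finset.mem_Icc, Finset.mem_Ico, Finset.mem_insert]; omega
  have h2 : (p + (n : ℤ)) ∉ Finset.Ico p (p + (n : ℤ)) := by simp
  rw [h1, Finset.filter_insert, if_pos h, Finset.card_insert_of_notMem (by simp [h2]), card_Ico]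

open Classical in
lemma card_Ioo (p : ℤ) (n : ℕ) (hn : 0 < n) (h : ¬ Hole p) :
    ((Finset.Ioo p (p + n)).filter (fun m => ¬ Hole m)).card + 1 = c p n := by
  have h1 : Finset.Ico p (p + (n : ℤ)) = insert p (Finset.Ioo p (p + n)) := by
    ext m; simp only [Finset.mem_Ioo, Finset.mem_Ico, Finset.mem_insert]; omega
  rw [← card_Ico, h1, Finset.filter_insert, if_pos h, Finset.card_insert_of_notMem (by simp)]

/-- The embedding of the lattice. -/
noncomputable def g {d : ℕ} (n : Fin d → ℤ) : E d := WithLp.toLp 2 (fun i => 2 * (n i : ℝ))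

lemma g_injective {d : ℕ} : Function.Injective (g (d := d)) := by
  intro m n h
  funext i
  have h1 : (g m) i = (g n) i := by rw [h]
  simp only [g] at h1
  have : (m i : ℝ) = n i := by linarith
  exact_mod_cast this

open Classical in
lemma vertices_inter_tile {d : ℕ} (x y : Fin d → ℤ) : vertices (tiles d) ∩ tile x y =
    g '' (↑(Fintype.piFinset fun i => (Finset.Icc (x i) (y i)).filter (fun m => ¬ Hole m)) : Set (Fin d → ℤ)) := by
  ext p
  constructor
  · rintro ⟨h1, h2⟩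
    rw [mem_vertices] at h1
    choose n h3 h4 using h1
    refine ⟨n, ?_, ?_⟩
    · rw [Finset.mem_coe, Fintype.mem_piFinset]
      intro i
      rw [Finset.mem_filter, Finset.mem_Icc]
      have := h2 i
      rw [h4 i] at this
      refine ⟨⟨?_, ?_⟩, h3 i⟩
      · have h5 : (x i : ℝ) ≤ n i := by linarith
        exact_mod_cast h5
      · have h5 : (n i : ℝ) ≤ y i := by linarith
        exact_mod_cast h5
    · ext i; simp only [g]; exact (h4 i).symm
  · rintro ⟨n, hn, rfl⟩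
    rw [Finset.mem_coe, Fintype.mem_piFinset] at hn
    refine ⟨?_, fun i => ?_⟩
    · rw [mem_vertices]
      intro i
      have := hn i
      rw [Finset.mem_filter] at this
      exact ⟨n i, this.2, rfl⟩
    · have := hn i
      rw [Finset.mem_filter, Finset.mem_Icc] at this
      have h5 : (x i : ℝ) ≤ n i := by exact_mod_cast this.1.1
      have h6 : (n i : ℝ) ≤ y i := by exact_mod_cast this.1.2
      simp only [g]
      constructor <;> linarith

open Classical in
lemma vertices_inter_interior {d : ℕ} (x y : Fin d → ℤ) : vertices (tiles d) ∩ interior (tile x y) =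
    g '' (↑(Fintype.piFinset fun i => (Finset.Ioo (x i) (y i)).filter (fun m => ¬ Hole m)) : Set (Fin d → ℤ)) := by
  rw [interior_tile]
  ext p
  constructor
  · rintro ⟨h1, h2⟩
    rw [mem_vertices] at h1
    choose n h3 h4 using h1
    refine ⟨n, ?_, ?_⟩
    · rw [Finset.mem_coe, Fintype.mem_piFinset]
      intro i
      rw [Finset.mem_filter, Finset.mem_Ioo]
      have := h2 i
      rw [h4 i] at this
      refine ⟨⟨?_, ?_⟩, h3 i⟩
      · have h5 : (x i : ℝ) < n i := by linarith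
        exact_mod_cast h5
      · have h5 : (n i : ℝ) < y i := by linarith
        exact_mod_cast h5
    · ext i; simp only [g]; exact (h4 i).symm
  · rintro ⟨n, hn, rfl⟩
    rw [Finset.mem_coe, Fintype.mem_piFinset] at hn
    refine ⟨?_, fun i => ?_⟩
    · rw [mem_vertices]
      intro i
      have := hn i
      rw [Finset.mem_filter] at this
      exact ⟨n i, this.2, rfl⟩
    · have := hn i
      rw [Finset.mem_filter, Finset.mem_Ioo] at this
      have h5 : (x i : ℝ) < n i := by exact_mod_cast this.1.1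
      have h6 : (n i : ℝ) < y i := by exact_mod_cast this.1.2
      simp only [g]
      constructor <;> linarith

/-- Number of vertices in a set. -/
noncomputable def count {d : ℕ} (𝒯 : Set (Set (E d))) (X : Set (E d)) : ℕ := (vertices 𝒯 ∩ X).ncard

lemma gap_len {x y : ℤ} (h : Gap x y) : ∃ n : ℕ, (n = 1 ∨ n = 2) ∧ y = x + n ∧ c x n = 1 := by
  classical
  rcases h with ⟨h1, h2, h3 | ⟨h3, h4⟩⟩
  · exact ⟨1, Or.inl rfl, by simpa using h3, by simp [c, h1]⟩
  · exact ⟨2, Or.inr rfl, by simpa using h3, by simp [c, Finset.sum_range_succ, h1, h4]⟩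

/-- Number of points of the inflated gap. -/
lemma gap_count {x y : ℤ} (h : Gap x y) (k : ℕ) : ∃ N : ℕ,
    (N : ℝ) = (2 * 5 ^ k * ((y : ℝ) - x) + 2 ^ k * (3 - 2 * ((y : ℝ) - x))) / 3 ∧
    (∀ [DecidablePred fun m : ℤ => ¬ Hole m],
      ((Finset.Icc (5 ^ k * x) (5 ^ k * y)).filter (fun m => ¬ Hole m)).card = N + 1) ∧
    (∀ [DecidablePred fun m : ℤ => ¬ Hole m],
      ((Finset.Ioo (5 ^ k * x) (5 ^ k * y)).filter (fun m => ¬ Hole m)).card + 1 = N) := by
  obtain ⟨n, hn, rfl, hc⟩ := gap_len h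
  have hpos : 0 < 5 ^ k * n := by rcases hn with rfl | rfl <;> positivity
  have hh : ∀ (m : ℤ) (k : ℕ), Hole (5 ^ k * m) ↔ Hole m := by
    intro m k
    induction k with
    | zero => simp
    | succ k ih => rw [pow_succ', mul_assoc, hole0, ih]
  have e : (5 : ℤ) ^ k * (x + n) = 5 ^ k * x + ((5 ^ k * n : ℕ) : ℤ) := by push_cast; ring
  refine ⟨c (5 ^ k * x) (5 ^ k * n), ?_, ?_, ?_⟩
  · have h1 := c_pow x n k
    rw [hc] at h1
    have h2 : 3 * (c (5 ^ k * x) (5 ^ k * n) : ℝ) = 2 * 5 ^ k * n + 2 ^ k * (3 * 1 - 2 * n) := by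
      exact_mod_cast h1
    push_cast
    linarith
  · intro _
    rw [e]
    convert card_Icc (5 ^ k * x) (5 ^ k * n) ?_
    rw [← e, hh]; exact h.2.1
  · intro _
    rw [e]
    convert card_Ioo (5 ^ k * x) (5 ^ k * n) hpos ?_
    rw [hh]; exact h.1

lemma tile_counts {d : ℕ} {x y : Fin d → ℤ} (h : ∀ i, Gap (x i) (y i)) (k : ℕ) :
    ∃ N : Fin d → ℕ,
    (∀ i, (N i : ℝ) = (2 * 5 ^ k * ((y i : ℝ) - x i) + 2 ^ k * (3 - 2 * ((y i : ℝ) - x i))) / 3) ∧
    (count (tiles d) ((act (phi d))^[k] '' tile x y) : ℝ) = ∏ i, ((N i : ℝ) + 1) ∧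
    ((vertices (tiles d) ∩ interior ((act (phi d))^[k] '' tile x y)).ncard : ℝ) = ∏ i, ((N i : ℝ) - 1) := by
  classical
  choose N h1 h2 h3 using fun i => gap_count (h i) k
  refine ⟨N, h1, ?_, ?_⟩
  · rw [count, image_phi_pow_tile, vertices_inter_tile, Set.ncard_image_of_injective _ g_injective,
      Set.ncard_coe_finset, Fintype.card_piFinset]
    push_cast
    refine Finset.prod_congr rfl fun i _ => ?_
    rw [h2 i]; push_cast; ring
  · rw [image_phi_pow_tile, vertices_inter_interior, Set.ncard_image_of_injective _ g_injective,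
      Set.ncard_coe_finset, Fintype.card_piFinset]
    push_cast
    refine Finset.prod_congr rfl fun i _ => ?_
    rw [← h3 i]; push_cast; ring

lemma finite_inter_tile {d : ℕ} (x y : Fin d → ℤ) : (vertices (tiles d) ∩ tile x y).Finite := by
  rw [vertices_inter_tile]
  exact (Finset.finite_toSet _).image _

lemma volume_tile {d : ℕ} {x y : Fin d → ℤ} (h : ∀ i, Gap (x i) (y i)) :
    (volume (tile x y)).toReal = ∏ i, (2 * ((y i : ℝ) - x i)) := by
  rw [tile, volume_rbox _ _ (tile_le h), ENNReal.toReal_ofReal]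
  · refine Finset.prod_congr rfl fun i _ => by ring
  · exact Finset.prod_nonneg fun i _ => by linarith [tile_le h i]

lemma tendsto_aux (a b e : ℝ) :
    Tendsto (fun k : ℕ => ((2 * 5 ^ k * a + 2 ^ k * b) / 3 + e) / 5 ^ k) atTop (𝓝 (2 * a / 3)) := by
  have h1 : Tendsto (fun k : ℕ => ((2 / 5 : ℝ)) ^ k) atTop (𝓝 0) :=
    tendsto_pow_atTop_nhds_zero_of_lt_one (by norm_num) (by norm_num)
  have h2 : Tendsto (fun k : ℕ => ((1 / 5 : ℝ)) ^ k) atTop (𝓝 0) :=
    tendsto_pow_atTop_nhds_zero_of_lt_one (by norm_num) (by norm_num)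
  have h3 : Tendsto (fun k : ℕ => 2 * a / 3 + b / 3 * (2 / 5 : ℝ) ^ k + e * (1 / 5 : ℝ) ^ k) atTop
      (𝓝 (2 * a / 3 + b / 3 * 0 + e * 0)) :=
    (tendsto_const_nhds.add (h1.const_mul _)).add (h2.const_mul _)
  simp only [mul_zero, add_zero] at h3
  refine h3.congr fun k => ?_
  have h5 : (5:ℝ) ^ k ≠ 0 := by positivity
  rw [div_pow, div_pow, one_pow]
  field_simp

lemma closed_lim {d : ℕ} {x y : Fin d → ℤ} (h : ∀ i, Gap (x i) (y i)) :
    Tendsto (fun k : ℕ => (count (tiles d) ((act (phi d))^[k] '' tile x y) : ℝ) / (5 ^ k) ^ d) atTop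
      (𝓝 ((volume (tile x y)).toReal / 3 ^ d)) := by
  choose N h1 h2 h3 using fun k => tile_counts h k
  have h4 : Tendsto (fun k : ℕ => ∏ i, (((N k i : ℝ) + 1) / 5 ^ k)) atTop
      (𝓝 (∏ i, (2 * ((y i : ℝ) - x i) / 3))) := by
    refine tendsto_finsetProd _ fun i _ => ?_
    refine (tendsto_aux ((y i : ℝ) - x i) (3 - 2 * ((y i : ℝ) - x i)) 1).congr fun k => ?_
    rw [h1 k i]
  rw [volume_tile h]
  have e1 : ∏ i, (2 * ((y i : ℝ) - x i) / 3) = (∏ i, (2 * ((y i : ℝ) - x i))) / 3 ^ d := by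
    rw [Finset.prod_div_distrib]; simp
  rw [← e1]
  refine h4.congr fun k => ?_
  rw [h2 k, Finset.prod_div_distrib]; simp

lemma open_lim {d : ℕ} {x y : Fin d → ℤ} (h : ∀ i, Gap (x i) (y i)) :
    Tendsto (fun k : ℕ => ((vertices (tiles d) ∩ interior ((act (phi d))^[k] '' tile x y)).ncard : ℝ) / (5 ^ k) ^ d)
      atTop (𝓝 ((volume (tile x y)).toReal / 3 ^ d)) := by
  choose N h1 h2 h3 using fun k => tile_counts h k
  have h4 : Tendsto (fun k : ℕ => ∏ i, (((N k i : ℝ) - 1) / 5 ^ k)) atTop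
      (𝓝 (∏ i, (2 * ((y i : ℝ) - x i) / 3))) := by
    refine tendsto_finsetProd _ fun i _ => ?_
    refine (tendsto_aux ((y i : ℝ) - x i) (3 - 2 * ((y i : ℝ) - x i)) (-1)).congr fun k => ?_
    rw [h1 k i]; ring
  rw [volume_tile h]
  have e1 : ∏ i, (2 * ((y i : ℝ) - x i) / 3) = (∏ i, (2 * ((y i : ℝ) - x i))) / 3 ^ d := by
    rw [Finset.prod_div_distrib]; simp
  rw [← e1]
  refine h4.congr fun k => ?_
  rw [h3 k, Finset.prod_div_distrib]; simp

open Pointwise in
lemma volume_image_phi_pow {d : ℕ} (k : ℕ) (X : Set (E d)) :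
    (volume ((act (phi d))^[k] '' X)).toReal = (5 ^ k) ^ d * (volume X).toReal := by
  have h1 : (act (phi d))^[k] '' X = ((5 : ℝ) ^ k) • X := by
    rw [← Set.image_smul]
    exact Set.image_congr fun p _ => phi_pow_apply k p
  rw [h1, Measure.addHaar_smul, ENNReal.toReal_mul, finrank_euclideanSpace, Fintype.card_fin,
    ENNReal.toReal_ofReal (abs_nonneg _), abs_of_nonneg (by positivity)]

lemma ae_disjoint {d : ℕ} {S T : Set (E d)} (hS : S ∈ tiles d) (hT : T ∈ tiles d) (hne : S ≠ T) :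
    AEDisjoint volume S T := by
  have hd := (isTiling_tiles d).packing S hS T hT hne
  obtain ⟨x, y, h, rfl⟩ := hS
  obtain ⟨u, v, h', rfl⟩ := hT
  have hsub : tile x y ∩ tile u v ⊆ frontier (tile x y) ∪ frontier (tile u v) := by
    rintro p ⟨h1, h2⟩
    by_contra hcon
    rw [Set.mem_union, not_or] at hcon
    obtain ⟨h3, h4⟩ := hcon
    have hc : IsClosed (tile x y : Set (E d)) := closed_rbox _ _
    have hc' : IsClosed (tile u v : Set (E d)) := closed_rbox _ _
    rw [hc.frontier_eq] at h3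
    rw [hc'.frontier_eq] at h4
    have h5 : p ∈ interior (tile x y) := by
      by_contra h; exact h3 ⟨h1, h⟩
    have h6 : p ∈ interior (tile u v) := by
      by_contra h; exact h4 ⟨h2, h⟩
    exact Set.disjoint_left.mp hd h5 h6
  refine measure_mono_null hsub ?_
  rw [measure_union_null_iff]
  exact ⟨(convex_rbox _ _).addHaar_frontier volume, (convex_rbox _ _).addHaar_frontier volume⟩

lemma patch_lim (d : ℕ) (𝒜 : Set (Set (E d))) (h𝒜 : 𝒜 ⊆ tiles d) (hfin : 𝒜.Finite)
    (hne : 𝒜.Nonempty) :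
    Tendsto (fun k : ℕ => (volume ((act (phi d))^[k] '' ⋃₀ 𝒜)).toReal /
      (count (tiles d) ((act (phi d))^[k] '' ⋃₀ 𝒜) : ℝ)) atTop (𝓝 (3 ^ d)) := by
  classical
  have hV : (volume (⋃₀ 𝒜)).toReal = ∑ T ∈ hfin.toFinset, (volume T).toReal := by
    have h1 : ⋃₀ 𝒜 = ⋃ T ∈ hfin.toFinset, T := by
      ext p; simp
    rw [h1, measure_biUnion_finset₀, ENNReal.toReal_sum]
    · intro T hT
      obtain ⟨x, y, h, rfl⟩ := h𝒜 (hfin.mem_toFinset.1 hT)
      rw [tile, volume_rbox _ _ (tile_le h)]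
      exact ENNReal.ofReal_ne_top
    · intro S hS T hT hST
      exact ae_disjoint (h𝒜 (hfin.mem_toFinset.1 hS)) (h𝒜 (hfin.mem_toFinset.1 hT)) hST
    · intro T hT
      obtain ⟨x, y, h, rfl⟩ := h𝒜 (hfin.mem_toFinset.1 hT)
      exact (closed_rbox _ _).measurableSet.nullMeasurableSet
  have hVpos : 0 < (volume (⋃₀ 𝒜)).toReal := by
    rw [hV]
    obtain ⟨T, hT⟩ := hne
    have h0 : ∀ T ∈ hfin.toFinset, 0 < (volume T).toReal := by
      intro T hT
      obtain ⟨x, y, h, rfl⟩ := h𝒜 (hfin.mem_toFinset.1 hT)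
      rw [volume_tile h]
      exact Finset.prod_pos fun i _ => by linarith [tile_lt h i]
    exact Finset.sum_pos h0 ⟨T, hfin.mem_toFinset.2 hT⟩
  have himg : ∀ k : ℕ, (act (phi d))^[k] '' ⋃₀ 𝒜 = ⋃ T ∈ hfin.toFinset, (act (phi d))^[k] '' T := by
    intro k
    ext p
    constructor
    · rintro ⟨q, ⟨T, hT, hq⟩, rfl⟩
      simp only [Set.mem_iUnion]
      exact ⟨T, hfin.mem_toFinset.2 hT, q, hq, rfl⟩
    · intro hp
      simp only [Set.mem_iUnion] at hp
      obtain ⟨T, hT, q, hq, rfl⟩ := hp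
      exact ⟨q, ⟨T, hfin.mem_toFinset.1 hT, hq⟩, rfl⟩
  have hup : ∀ k : ℕ, (count (tiles d) ((act (phi d))^[k] '' ⋃₀ 𝒜) : ℝ) ≤
      ∑ T ∈ hfin.toFinset, (count (tiles d) ((act (phi d))^[k] '' T) : ℝ) := by
    intro k
    rw [count, himg k, Set.inter_iUnion₂]
    exact_mod_cast Finset.set_ncard_biUnion_le _ _
  have hfinite : ∀ k : ℕ, ∀ T ∈ hfin.toFinset, (vertices (tiles d) ∩ (act (phi d))^[k] '' T).Finite := by
    intro k T hT
    obtain ⟨x, y, h, rfl⟩ := h𝒜 (hfin.mem_toFinset.1 hT)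
    rw [image_phi_pow_tile]
    exact finite_inter_tile _ _
  have hlow : ∀ k : ℕ, ∑ T ∈ hfin.toFinset,
      ((vertices (tiles d) ∩ interior ((act (phi d))^[k] '' T)).ncard : ℝ) ≤
      (count (tiles d) ((act (phi d))^[k] '' ⋃₀ 𝒜) : ℝ) := by
    intro k
    have h1 : (⋃ T ∈ (↑hfin.toFinset : Set (Set (E d))), vertices (tiles d) ∩ interior ((act (phi d))^[k] '' T)).ncard =
        ∑ᶠ T ∈ (↑hfin.toFinset : Set (Set (E d))), (vertices (tiles d) ∩ interior ((act (phi d))^[k] '' T)).ncard := by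
      apply Set.Finite.ncard_biUnion (Finset.finite_toSet _)
      · intro T hT
        exact (hfinite k T hT).subset (Set.inter_subset_inter_right _ interior_subset)
      · intro S hS T hT hST
        obtain ⟨x, y, h, rfl⟩ := h𝒜 (hfin.mem_toFinset.1 hS)
        obtain ⟨u, v, h', rfl⟩ := h𝒜 (hfin.mem_toFinset.1 hT)
        obtain ⟨i, hi⟩ := disjoint_or_eq h h' hST
        have h5 : (0 : ℤ) < 5 ^ k := by positivity
        have := obox_disjoint (d := d) (x := fun i => 5 ^ k * x i) (y := fun i => 5 ^ k * y i)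
          (u := fun i => 5 ^ k * u i) (v := fun i => 5 ^ k * v i) i (by
            rcases hi with hi | hi
            · left; exact mul_le_mul_of_nonneg_left hi h5.le
            · right; exact mul_le_mul_of_nonneg_left hi h5.le)
        simp only [Function.onFun]
        rw [image_phi_pow_tile, image_phi_pow_tile]
        exact this.mono Set.inter_subset_right Set.inter_subset_right
    rw [finsum_mem_coe_finset] at h1
    have h2 : (∑ T ∈ hfin.toFinset, (vertices (tiles d) ∩ interior ((act (phi d))^[k] '' T)).ncard) ≤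
        count (tiles d) ((act (phi d))^[k] '' ⋃₀ 𝒜) := by
      rw [← h1, count]
      apply Set.ncard_le_ncard
      · intro p hp
        simp only [Set.mem_iUnion] at hp
        obtain ⟨T, hT, hp1, hp2⟩ := hp
        refine ⟨hp1, ?_⟩
        rw [himg k]
        simp only [Set.mem_iUnion]
        exact ⟨T, hT, interior_subset hp2⟩
      · rw [himg k, Set.inter_iUnion₂]
        exact Set.Finite.biUnion (Finset.finite_toSet _) (hfinite k)
    exact_mod_cast h2
  have hlim : Tendsto (fun k : ℕ => (count (tiles d) ((act (phi d))^[k] '' ⋃₀ 𝒜) : ℝ) / (5 ^ k) ^ d) atTop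
      (𝓝 ((volume (⋃₀ 𝒜)).toReal / 3 ^ d)) := by
    rw [hV, Finset.sum_div]
    refine tendsto_of_tendsto_of_tendsto_of_le_of_le
      (g := fun k : ℕ => ∑ T ∈ hfin.toFinset,
        ((vertices (tiles d) ∩ interior ((act (phi d))^[k] '' T)).ncard : ℝ) / (5 ^ k) ^ d)
      (h := fun k : ℕ => ∑ T ∈ hfin.toFinset, (count (tiles d) ((act (phi d))^[k] '' T) : ℝ) / (5 ^ k) ^ d)
      ?_ ?_ ?_ ?_
    · refine tendsto_finsetSum _ fun T hT => ?_
      obtain ⟨x, y, h, rfl⟩ := h𝒜 (hfin.mem_toFinset.1 hT)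
      exact open_lim h
    · refine tendsto_finsetSum _ fun T hT => ?_
      obtain ⟨x, y, h, rfl⟩ := h𝒜 (hfin.mem_toFinset.1 hT)
      exact closed_lim h
    · intro k
      simp only
      rw [← Finset.sum_div]
      exact div_le_div_of_nonneg_right (hlow k) (by positivity)
    · intro k
      simp only
      rw [← Finset.sum_div]
      exact div_le_div_of_nonneg_right (hup k) (by positivity)
  have h3 : ((volume (⋃₀ 𝒜)).toReal / 3 ^ d) ≠ 0 := by positivity
  have h4 := (tendsto_const_nhds (x := (volume (⋃₀ 𝒜)).toReal) (f := atTop (α := ℕ))).div hlim h3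
  have h5 : (volume (⋃₀ 𝒜)).toReal / ((volume (⋃₀ 𝒜)).toReal / 3 ^ d) = 3 ^ d := by
    field_simp
  rw [h5] at h4
  refine h4.congr fun k => ?_
  rw [volume_image_phi_pow]
  have h6 : ((5:ℝ) ^ k) ^ d ≠ 0 := by positivity
  simp only [Pi.div_apply]
  rw [div_div_eq_mul_div, mul_comm]

/-- The length of the boundary of a planar set. -/
noncomputable def perimeter (X : Set (E 2)) : ℝ := (μH[1] (frontier X)).toReal

lemma pt_segment (a b : ℝ × ℝ) (p : E 2) (t : ℝ) (h0 : 0 ≤ t) (h1 : t ≤ 1)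
    (e0 : p 0 = a.1 + t * (b.1 - a.1)) (e1 : p 1 = a.2 + t * (b.2 - a.2)) :
    p ∈ segment ℝ (WithLp.toLp 2 ![a.1, a.2] : E 2) (WithLp.toLp 2 ![b.1, b.2]) := by
  refine ⟨1 - t, t, by linarith, h0, by ring, ?_⟩
  ext i
  fin_cases i
  · simp [e0]; ring
  · simp [e1]; ring

lemma edist_pt (a b : ℝ × ℝ) (s : ℝ) (hs : 0 ≤ s) (h : (a.1 - b.1) ^ 2 + (a.2 - b.2) ^ 2 = s ^ 2) :
    edist (WithLp.toLp 2 ![a.1, a.2] : E 2) (WithLp.toLp 2 ![b.1, b.2]) = ENNReal.ofReal s := by
  rw [edist_dist, EuclideanSpace.dist_eq]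
  congr 1
  rw [Fin.sum_univ_two, Real.dist_eq, Real.dist_eq, sq_abs, sq_abs]
  simp only [Matrix.cons_val_zero, Matrix.cons_val_one]
  rw [h, Real.sqrt_sq hs]

lemma perimeter_square (s : ℝ) (hs : 0 < s) :
    0 < perimeter (rbox (fun _ => 0) (fun _ => s)) ∧ perimeter (rbox (fun _ => 0) (fun _ => s)) ≤ 4 * s := by
  have hfr : frontier (rbox (fun _ => 0) (fun _ => s) : Set (E 2)) =
      rbox (fun _ => 0) (fun _ => s) \ obox (fun _ => 0) (fun _ => s) := by
    rw [(closed_rbox _ _).frontier_eq, interior_rbox]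
  set A : Set (E 2) := segment ℝ (WithLp.toLp 2 ![((0:ℝ), (0:ℝ)).1, ((0:ℝ), (0:ℝ)).2]) (WithLp.toLp 2 ![(s, (0:ℝ)).1, (s, (0:ℝ)).2]) with hA
  set B : Set (E 2) := segment ℝ (WithLp.toLp 2 ![((0:ℝ), s).1, ((0:ℝ), s).2]) (WithLp.toLp 2 ![(s, s).1, (s, s).2]) with hB
  set C : Set (E 2) := segment ℝ (WithLp.toLp 2 ![((0:ℝ), (0:ℝ)).1, ((0:ℝ), (0:ℝ)).2]) (WithLp.toLp 2 ![((0:ℝ), s).1, ((0:ℝ), s).2]) with hC
  set D : Set (E 2) := segment ℝ (WithLp.toLp 2 ![(s, (0:ℝ)).1, (s, (0:ℝ)).2]) (WithLp.toLp 2 ![(s, s).1, (s, s).2]) with hD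
  have mA : μH[1] A = ENNReal.ofReal s := by
    rw [hA, hausdorffMeasure_segment, edist_pt _ _ s hs.le (by ring)]
  have mB : μH[1] B = ENNReal.ofReal s := by
    rw [hB, hausdorffMeasure_segment, edist_pt _ _ s hs.le (by ring)]
  have mC : μH[1] C = ENNReal.ofReal s := by
    rw [hC, hausdorffMeasure_segment, edist_pt _ _ s hs.le (by ring)]
  have mD : μH[1] D = ENNReal.ofReal s := by
    rw [hD, hausdorffMeasure_segment, edist_pt _ _ s hs.le (by ring)]
  have hsub : frontier (rbox (fun _ => 0) (fun _ => s) : Set (E 2)) ⊆ (A ∪ B) ∪ (C ∪ D) := by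
    rw [hfr]
    rintro p ⟨h1, h2⟩
    have h3 : ∃ i, p i = 0 ∨ p i = s := by
      by_contra hcon
      push Not at hcon
      exact h2 fun i => ⟨lt_of_le_of_ne (h1 i).1 (hcon i).1.symm, lt_of_le_of_ne (h1 i).2 (hcon i).2⟩
    have t0 : 0 ≤ p 0 / s := div_nonneg (h1 0).1 hs.le
    have t0' : p 0 / s ≤ 1 := (div_le_one hs).2 (h1 0).2
    have t1 : 0 ≤ p 1 / s := div_nonneg (h1 1).1 hs.le
    have t1' : p 1 / s ≤ 1 := (div_le_one hs).2 (h1 1).2
    obtain ⟨i, hi⟩ := h3
    fin_cases i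
    · rcases hi with hi | hi
      · exact Or.inr (Or.inl (pt_segment _ _ p (p 1 / s) t1 t1' (by simpa using hi) (by field_simp; ring)))
      · exact Or.inr (Or.inr (pt_segment _ _ p (p 1 / s) t1 t1' (by simpa using hi) (by field_simp; ring)))
    · rcases hi with hi | hi
      · exact Or.inl (Or.inl (pt_segment _ _ p (p 0 / s) t0 t0' (by field_simp; ring) (by simpa using hi)))
      · exact Or.inl (Or.inr (pt_segment _ _ p (p 0 / s) t0 t0' (by field_simp; ring) (by simpa using hi)))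
  have hup : μH[1] (frontier (rbox (fun _ => 0) (fun _ => s) : Set (E 2))) ≤ ENNReal.ofReal (4 * s) := by
    calc μH[1] (frontier (rbox (fun _ => 0) (fun _ => s) : Set (E 2)))
        ≤ μH[1] ((A ∪ B) ∪ (C ∪ D)) := measure_mono hsub
      _ ≤ (μH[1] A + μH[1] B) + (μH[1] C + μH[1] D) :=
          (measure_union_le _ _).trans (add_le_add (measure_union_le _ _) (measure_union_le _ _))
      _ = ENNReal.ofReal (4 * s) := by
          rw [mA, mB, mC, mD, ← ENNReal.ofReal_add hs.le hs.le, ← ENNReal.ofReal_add (by linarith) (by linarith)]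
          congr 1; ring
  have hlow : ENNReal.ofReal s ≤ μH[1] (frontier (rbox (fun _ => 0) (fun _ => s) : Set (E 2))) := by
    rw [← mA]
    apply measure_mono
    rw [hfr]
    rintro p ⟨a, b, ha, hb, hab, rfl⟩
    have hb1 : b ≤ 1 := by linarith
    refine ⟨fun i => ?_, fun h => ?_⟩
    · fin_cases i
      · simp
        constructor
        · positivity
        · nlinarith
      · simp [hs.le]
    · have := (h 1).1
      simp at this
  constructor
  · rw [perimeter, ENNReal.toReal_pos_iff]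
    exact ⟨lt_of_lt_of_le (by simpa using hs) hlow, lt_of_le_of_lt hup ENNReal.ofReal_lt_top⟩
  · rw [perimeter]
    refine ENNReal.toReal_le_of_le_ofReal (by linarith) hup

/-- Any two vertices have distance at least `2`. -/
def IsSeparated (𝒯 : Set (Set (E 2))) : Prop :=
  ∀ p ∈ vertices 𝒯, ∀ q ∈ vertices 𝒯, p ≠ q → 2 ≤ dist p q

/-- No nonzero translation maps the tiling to itself. -/
def IsNonperiodic (𝒯 : Set (Set (E 2))) : Prop :=
  ∀ v, (∀ T ∈ 𝒯, shift v T ∈ 𝒯) → v = 0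

/-- `Δ` is the volume per vertex: `V (φ ^ k P) / # (Γ ∩ φ ^ k P) → Δ` for every patch `P`, where
`φ = act A`. -/
def IsDelta (𝒯 : Set (Set (E 2))) (A : Matrix (Fin 2) (Fin 2) ℝ) (Δ : ℝ) : Prop :=
  ∀ 𝒜 ⊆ 𝒯, 𝒜.Finite → 𝒜.Nonempty → Tendsto (fun k : ℕ =>
    (volume ((act A)^[k] '' ⋃₀ 𝒜)).toReal / (count 𝒯 ((act A)^[k] '' ⋃₀ 𝒜) : ℝ)) atTop (𝓝 Δ)

/-- The error in the Pick-type formula, `# (Γ ∩ X) - (V X / Δ + # (Γ ∩ ∂ X) / 2)`. -/
noncomputable def pickError (𝒯 : Set (Set (E 2))) (Δ : ℝ) (X : Set (E 2)) : ℝ :=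
  (count 𝒯 X : ℝ) - ((volume X).toReal / Δ + 1 / 2 * (count 𝒯 (frontier X) : ℝ))

/-- There is a self-affine tiling of the plane, without nonzero translational symmetry, for which
the Pick-type formula fails already for a single tile `P`, the error divided by the length of the
boundary even tending to infinity. -/
theorem result : ∃ (𝒯 : Set (Set (E 2))) (A : Matrix (Fin 2) (Fin 2) ℝ) (Δ : ℝ),
    IsSelfAffine 𝒯 A ∧ IsSeparated 𝒯 ∧ IsNonperiodic 𝒯 ∧ 0 < Δ ∧ IsDelta 𝒯 A Δ ∧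
    ∃ P ∈ 𝒯, Tendsto (fun k : ℕ => pickError 𝒯 Δ ((act A)^[k] '' P) / perimeter ((act A)^[k] '' P))
      atTop atTop := by
  refine ⟨tiles 2, phi 2, 9, isSelfAffine 2, separated 2, aperiodic 2, by norm_num, ?_, ?_⟩
  · intro 𝒜 h1 h2 h3
    have := patch_lim 2 𝒜 h1 h2 h3
    rwa [show (3 : ℝ) ^ 2 = 9 by norm_num] at this
  · have hg : ∀ i : Fin 2, Gap ((fun _ => 0 : Fin 2 → ℤ) i) ((fun _ => 1 : Fin 2 → ℤ) i) := fun _ =>
      ⟨not_hole_zero, by simpa using not_hole1 0, Or.inl (by norm_num)⟩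
    refine ⟨tile (fun _ => 0) (fun _ => 1), ⟨_, _, hg, rfl⟩, ?_⟩
    have hlow : ∀ k : ℕ, (2:ℝ) ^ k / 18 ≤ ((count (tiles 2) ((act (phi 2))^[k] '' tile (fun _ => 0) (fun _ => 1)) : ℝ) -
        ((volume ((act (phi 2))^[k] '' tile (fun _ => 0) (fun _ => 1))).toReal / 9 + 1 / 2 *
        (count (tiles 2) (frontier ((act (phi 2))^[k] '' tile (fun _ => 0) (fun _ => 1))) : ℝ))) /
        perimeter ((act (phi 2))^[k] '' tile (fun _ => 0) (fun _ => 1)) := by
      intro k
      obtain ⟨N, h1, h2, h3⟩ := tile_counts hg k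
      have hV : (volume ((act (phi 2))^[k] '' tile (fun _ => 0) (fun _ => 1))).toReal = 4 * (5 ^ k) ^ 2 := by
        rw [volume_image_phi_pow, volume_tile hg]
        simp; ring
      have hcl : IsClosed ((act (phi 2))^[k] '' tile (fun _ => 0) (fun _ => 1)) := by
        rw [image_phi_pow_tile]; exact closed_rbox _ _
      have hfin : (vertices (tiles 2) ∩ (act (phi 2))^[k] '' tile (fun _ => 0) (fun _ => 1)).Finite := by
        rw [image_phi_pow_tile]; exact finite_inter_tile _ _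
      have hfr : count (tiles 2) (frontier ((act (phi 2))^[k] '' tile (fun _ => 0) (fun _ => 1))) +
          (vertices (tiles 2) ∩ interior ((act (phi 2))^[k] '' tile (fun _ => 0) (fun _ => 1))).ncard =
          count (tiles 2) ((act (phi 2))^[k] '' tile (fun _ => 0) (fun _ => 1)) := by
        rw [count, count, hcl.frontier_eq]
        have hdis : Disjoint (vertices (tiles 2) ∩ (((act (phi 2))^[k] '' tile (fun _ => 0) (fun _ => 1)) \
            interior ((act (phi 2))^[k] '' tile (fun _ => 0) (fun _ => 1))))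
            (vertices (tiles 2) ∩ interior ((act (phi 2))^[k] '' tile (fun _ => 0) (fun _ => 1))) := by
          rw [Set.disjoint_left]
          rintro p ⟨_, h4⟩ ⟨_, h5⟩
          exact h4.2 h5
        rw [← Set.ncard_union_eq hdis
          (hfin.subset (Set.inter_subset_inter_right _ Set.sdiff_subset))
          (hfin.subset (Set.inter_subset_inter_right _ interior_subset)),
          ← Set.inter_union_distrib_left, Set.sdiff_union_of_subset interior_subset]
      have hfr' : (count (tiles 2) (frontier ((act (phi 2))^[k] '' tile (fun _ => 0) (fun _ => 1))) : ℝ) =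
          (count (tiles 2) ((act (phi 2))^[k] '' tile (fun _ => 0) (fun _ => 1)) : ℝ) -
          ((vertices (tiles 2) ∩ interior ((act (phi 2))^[k] '' tile (fun _ => 0) (fun _ => 1))).ncard : ℝ) := by
        rw [← hfr]; push_cast; ring
      have hn : ∀ i, (N i : ℝ) = (2 * 5 ^ k + 2 ^ k) / 3 := by
        intro i; rw [h1 i]; push_cast; ring
      have hper := perimeter_square (2 * 5 ^ k) (by positivity)
      have hX : ((act (phi 2))^[k] '' tile (fun _ => 0) (fun _ => 1) : Set (E 2)) =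
          rbox (fun _ => 0) (fun _ => 2 * 5 ^ k) := by
        rw [image_phi_pow_tile, tile]
        congr 1
        · funext i; simp
        · funext i; simp
      rw [hfr', hV, h2, h3, Fin.prod_univ_two, Fin.prod_univ_two, hn 0, hn 1, hX,
        le_div_iff₀ hper.1]
      have e10 : (10:ℝ) ^ k = 2 ^ k * 5 ^ k := by rw [← mul_pow]; norm_num
      have h5 : (0:ℝ) < 5 ^ k := by positivity
      have h2' : (0:ℝ) < 2 ^ k := by positivity
      have h6 : (2:ℝ) ^ k / 18 * perimeter (rbox (fun _ => 0) (fun _ => 2 * 5 ^ k)) ≤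
          2 ^ k / 18 * (4 * (2 * 5 ^ k)) := mul_le_mul_of_nonneg_left hper.2 (by positivity)
      refine h6.trans ?_
      generalize (5:ℝ) ^ k = a
      generalize (2:ℝ) ^ k = b
      rw [← sub_nonneg]
      have e : ((2 * a + b) / 3 + 1) * ((2 * a + b) / 3 + 1) -
          (4 * a ^ 2 / 9 + 1 / 2 * (((2 * a + b) / 3 + 1) * ((2 * a + b) / 3 + 1) -
            ((2 * a + b) / 3 - 1) * ((2 * a + b) / 3 - 1))) - b / 18 * (4 * (2 * a)) =
          b ^ 2 / 9 + 1 := by ring
      rw [e]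
      positivity
    refine tendsto_atTop_mono (fun k => hlow k) ?_
    exact (tendsto_pow_atTop_atTop_of_one_lt (by norm_num)).atTop_div_const (by norm_num)

end Pool.Agent.Results.MP_9c1228_co.Disproof
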